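import Pool.Agent.Q192.PK.ManC

/-!
# MP_0a0487_an: universal covers, conditions at the periodic points
-/

set_option autoImplicit false

open scoped Manifold ContDiff Topology Bundle
open Set Filter Bundle

namespace Pool.Agent.Results.MP_0a0487_an.PeriodicExponentsCovered

open Pool.Agent.H789R2.AN Pool.Agent.TH289.K Pool.Agent.Q192.PK

/-- **Universal covers of manifolds with Anosov diffeomorphisms, from the eigenvalues at the periodic
points.**

Let `f` be a `C²` Anosov diffeomorphism of a closed connected manifold `M` modelled on `E`,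
`TM = Es ⊕ Eu`. Suppose one of the following.
* One of the two bundles, `V`, has rank at least two, and at each periodic point `p = fᵏ p` all
  eigenvalues of `D(fᵏ)` on `V p` have the same modulus, which may depend on `p`; Jordan blocks are
  allowed, and nothing is assumed on the other bundle (`OneModulus`).
* At each periodic point `p = fᵏ p` the moduli of the eigenvalues of `D(fᵏ)` are in `[μ₁ᵏ, μ₂ᵏ]` on
  `Es p` and in `[l₁ᵏ, l₂ᵏ]` on `Eu p`, and `log l₁ / log l₂ + log μ₂ / log μ₁ > 1`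
  (`PeriodicRates`).

Then `f` has global product structure (`GPS`) and there is a surjective covering map from `E` onto
`M`; in particular the universal cover of `M` is homeomorphic to `ℝⁿ`. -/
theorem result (E : Type*) [NormedAddCommGroup E] [NormedSpace ℝ E] [FiniteDimensional ℝ E]
    (M : Type*) [TopologicalSpace M] [T2Space M] [CompactSpace M] [ConnectedSpace M]
    [ChartedSpace E M] [IsManifold 𝓘(ℝ, E) ∞ M] (f : Diffeomorph 𝓘(ℝ, E) 𝓘(ℝ, E) M M 1)
    (hf2 : ContMDiff 𝓘(ℝ, E) 𝓘(ℝ, E) 2 f) (hf2' : ContMDiff 𝓘(ℝ, E) 𝓘(ℝ, E) 2 f.symm)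
    (Es Eu : ∀ x : M, Submodule ℝ (TangentSpace 𝓘(ℝ, E) x)) (hA : IsAnosov f Es Eu)
    (h : ((∀ x, 2 ≤ Module.finrank ℝ (Eu x)) ∧ OneModulus f Eu) ∨
      ((∀ x, 2 ≤ Module.finrank ℝ (Es x)) ∧ OneModulus f Es) ∨
      ∃ μ₁ μ₂ l₁ l₂ : ℝ, 0 < μ₁ ∧ μ₁ ≤ μ₂ ∧ μ₂ < 1 ∧ 1 < l₁ ∧ l₁ ≤ l₂ ∧
        PeriodicRates f Es μ₁ μ₂ ∧ PeriodicRates f Eu l₁ l₂ ∧
        1 < Real.log l₁ / Real.log l₂ + Real.log μ₂ / Real.log μ₁) :
    GPS f.toHomeomorph ∧ ∃ P : E → M, IsCoveringMap P ∧ Function.Surjective P := by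
  obtain ⟨N, C, l, hN, -⟩ := hA.rates
  obtain ⟨-, k2, k3, -⟩ := man_per f hf2 hf2' Es Eu hA N hN h
  exact ⟨k2, k3⟩

end Pool.Agent.Results.MP_0a0487_an.PeriodicExponentsCovered
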