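import Pool.Agent.Q192.PI.A8

set_option autoImplicit false

open scoped Manifold ContDiff Topology
open Set Filter

namespace Pool.Agent.Results.MP_0a0487_an.PinchedCovered

open Pool.Agent.H721R2 Pool.Agent.H789R2.AN Pool.Agent.TH289.K

/-- Let `f` be a `C¹` Anosov diffeomorphism of a closed connected manifold `M` modelled on `E`, with
`C⁻¹ μ₁ⁿ ‖v‖ ≤ ‖Dfⁿ v‖ ≤ C μ₂ⁿ ‖v‖` on `Es` and `C⁻¹ l₁ⁿ ‖v‖ ≤ ‖Dfⁿ v‖ ≤ C l₂ⁿ ‖v‖` on `Eu`, where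
`0 < μ₁ ≤ μ₂ < 1 < l₁ ≤ l₂` and `log l₁ / log l₂ + log μ₂ / log μ₁ > 1`. Then `f` has a global product
structure (every stable path and every unstable path with the same origin span a rectangle of the two
foliations) and there is a surjective covering map from `E` onto `M`. -/
theorem result (E : Type*) [NormedAddCommGroup E] [NormedSpace ℝ E] [FiniteDimensional ℝ E]
    (M : Type*) [TopologicalSpace M] [T2Space M] [CompactSpace M] [ConnectedSpace M]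
    [ChartedSpace E M] [IsManifold 𝓘(ℝ, E) ∞ M] (f : Diffeomorph 𝓘(ℝ, E) 𝓘(ℝ, E) M M 1)
    (Es Eu : ∀ x : M, Submodule ℝ (TangentSpace 𝓘(ℝ, E) x)) (hA : IsAnosov f Es Eu)
    (N : TangentBundle 𝓘(ℝ, E) M → ℝ) (hN : IsTangentNorm N) (C μ₁ μ₂ l₁ l₂ : ℝ) (hC : 0 < C)
    (h₁ : 0 < μ₁) (h₂ : μ₁ ≤ μ₂) (h₃ : μ₂ < 1) (h₄ : 1 < l₁) (h₅ : l₁ ≤ l₂)
    (hs : RatesOn f N Es C μ₁ μ₂) (hu : RatesOn f N Eu C l₁ l₂)
    (hp : 1 < Real.log l₁ / Real.log l₂ + Real.log μ₂ / Real.log μ₁) :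
    GPS f.toHomeomorph ∧ ∃ π : E → M, IsCoveringMap π ∧ Function.Surjective π :=
  (Pool.Agent.Q192.PI.man_pinch f Es Eu hA N hN C μ₁ μ₂ l₁ l₂
    ⟨hC, h₁, h₂, h₃, h₄, h₅, hA.isCompl, hA.map_s, hA.map_u, hs, hu⟩ hp).2

end Pool.Agent.Results.MP_0a0487_an.PinchedCovered
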