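import Pool.Agent.Q192.PI.BFin

set_option autoImplicit false

open scoped Manifold ContDiff Topology
open Set Filter

namespace Pool.Agent.Results.MP_0a0487_an.SmallDistortionCovered

open Pool.Agent.H721R2 Pool.Agent.H789R2.AN Pool.Agent.TH289.K Pool.Agent.Q192.PI.B

/-- Let `f` be a `C¹` Anosov diffeomorphism of a closed connected manifold `M` modelled on `E`, and
let `N` be a continuous norm on `TM`. Suppose one of the following.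
* `f` has subexponential distortion on one of the two bundles, of rank at least two: for every
  `κ > 1` there is `C` with `N(Dfⁿ v) / N(v) ≤ C κⁿ N(Dfⁿ w) / N(w)` for all `n ≥ 0`, all points `x`
  and all `v, w ∈ Eu x` (or the same for `f⁻¹` and `Es`). Nothing is assumed on the other bundle.
* `f` has small distortion: `C⁻¹ μ₁ⁿ ≤ ‖Dfⁿ v‖ / ‖v‖ ≤ C μ₂ⁿ` on `Es`,
  `C⁻¹ l₁ⁿ ≤ ‖Dfⁿ v‖ / ‖v‖ ≤ C l₂ⁿ` on `Eu`, the distortion of `Dfⁿ` on `Eu`, of rank `D ≥ 2`, is at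
  most `C₁ κⁿ` and `2 D log κ (log μ₂ - log μ₁) < (-log μ₂) log l₁`.

Then `f` has a global product structure and there is a surjective covering map from `E` onto `M`. -/
theorem result (E : Type*) [NormedAddCommGroup E] [NormedSpace ℝ E] [FiniteDimensional ℝ E]
    (M : Type*) [TopologicalSpace M] [T2Space M] [CompactSpace M] [ConnectedSpace M]
    [ChartedSpace E M] [IsManifold 𝓘(ℝ, E) ∞ M] (f : Diffeomorph 𝓘(ℝ, E) 𝓘(ℝ, E) M M 1)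
    (Es Eu : ∀ x : M, Submodule ℝ (TangentSpace 𝓘(ℝ, E) x)) (hA : IsAnosov f Es Eu)
    (N : TangentBundle 𝓘(ℝ, E) M → ℝ) (hN : IsTangentNorm N)
    (h : ((∀ x, 2 ≤ Module.finrank ℝ (Eu x)) ∧ ∀ κ : ℝ, 1 < κ → ∃ C : ℝ, DistortionOn f N Eu C κ) ∨
      ((∀ x, 2 ≤ Module.finrank ℝ (Es x)) ∧
        ∀ κ : ℝ, 1 < κ → ∃ C : ℝ, DistortionOn f.symm N Es C κ) ∨
      ∃ (C μ₁ μ₂ l₁ l₂ C₁ κ : ℝ) (D : ℕ), 0 < C ∧ 0 < μ₁ ∧ μ₁ ≤ μ₂ ∧ μ₂ < 1 ∧ 1 < l₁ ∧ l₁ ≤ l₂ ∧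
        RatesOn f N Es C μ₁ μ₂ ∧ RatesOn f N Eu C l₁ l₂ ∧ 2 ≤ D ∧
        (∀ x, Module.finrank ℝ (Eu x) = D) ∧ 1 ≤ κ ∧ DistortionOn f N Eu C₁ κ ∧
        2 * D * Real.log κ * (Real.log μ₂ - Real.log μ₁) < -Real.log μ₂ * Real.log l₁) :
    GPS f.toHomeomorph ∧ ∃ π : E → M, IsCoveringMap π ∧ Function.Surjective π := by
  rcases h with h | h | ⟨C, μ₁, μ₂, l₁, l₂, C₁, κ, D, hC, h₁, h₂, h₃, h₄, h₅, hs, hu, hD, hrk, hκ,
    hd, hp⟩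
  · exact (man_sub2 f Es Eu hA N hN (Or.inl h)).2
  · exact (man_sub2 f Es Eu hA N hN (Or.inr h)).2
  · exact (man_quant2 f Es Eu hA N hN C μ₁ μ₂ l₁ l₂ C₁ κ
      ⟨hC, h₁, h₂, h₃, h₄, h₅, hA.isCompl, hA.map_s, hA.map_u, hs, hu⟩ D hD hrk hκ hd hp).2

end Pool.Agent.Results.MP_0a0487_an.SmallDistortionCovered
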